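import Mathlib

set_option autoImplicit false

universe u

namespace Pool.Agent.Lib.MP_9317e9_co

/-- `A` is independent in `G`. -/
def Indep {V : Type u} (G : Digraph V) (A : Set V) : Prop := ∀ a ∈ A, ∀ b ∈ A, ¬ G.Adj a b

/-- `A` is a quasi-kernel of the subdigraph induced on `W`. -/
def QK {V : Type u} (G : Digraph V) (W A : Set V) : Prop :=
  A ⊆ W ∧ Indep G A ∧ ∀ v ∈ W, v ∈ A ∨ ∃ a ∈ A, G.Adj a v ∨ ∃ u ∈ W, G.Adj a u ∧ G.Adj u v

/-- `B` is a quasi-sink of the subdigraph induced on `W`. -/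
def QS {V : Type u} (G : Digraph V) (W B : Set V) : Prop :=
  B ⊆ W ∧ Indep G B ∧ ∀ v ∈ W, v ∈ B ∨ ∃ b ∈ B, G.Adj v b ∨ ∃ u ∈ W, G.Adj v u ∧ G.Adj u b

/-- `Tame G U`: the set `U` is covered by sets `Y`, `X₀`, `Z₀`, `X₁`, `Z₁` where
* `X₀` (and `X₁`) is coloured with finitely many colours so that there is no monochromatic infinite
  backward walk in `X₀` and no monochromatic infinite forward walk in `X₁` (this holds for example
  if the colour classes are independent sets),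
* every vertex of `Z₀` has finitely many in-neighbours in `Z₀`, every vertex of `Z₁` has finitely
  many out-neighbours in `Z₁`,
* for every infinite sequence `y 0, y 1, ...` of distinct pairwise nonadjacent vertices of `Y ∩ U`
  there is a number `n y` such that the set of those vertices of `U` that are different from and
  nonadjacent to all of `y 0, ..., y (n y)` is itself tame (no condition if `Y` contains no
  infinite independent set). -/
inductive Tame {V : Type u} (G : Digraph V) : Set V → Prop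
  | intro (U Y X₀ Z₀ X₁ Z₁ : Set V) (c : V → ℕ) (k : ℕ)
      (cover : ∀ v ∈ U, v ∈ Y ∨ (v ∈ X₀ ∧ c v < k) ∨ v ∈ Z₀ ∨ (v ∈ X₁ ∧ c v < k) ∨ v ∈ Z₁)
      (hX₀ : ¬ ∃ f : ℕ → V, (∀ i, f i ∈ X₀ ∧ c (f i) = c (f 0)) ∧ ∀ i, G.Adj (f (i + 1)) (f i))
      (hZ₀ : ∀ z ∈ Z₀, {w | w ∈ Z₀ ∧ G.Adj w z}.Finite)
      (hX₁ : ¬ ∃ f : ℕ → V, (∀ i, f i ∈ X₁ ∧ c (f i) = c (f 0)) ∧ ∀ i, G.Adj (f i) (f (i + 1)))
      (hZ₁ : ∀ z ∈ Z₁, {w | w ∈ Z₁ ∧ G.Adj z w}.Finite)
      (n : (ℕ → V) → ℕ)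
      (rest : ∀ y : ℕ → V, (∀ i, y i ∈ Y ∧ y i ∈ U) →
        (∀ i j, i ≠ j → y i ≠ y j ∧ ¬ G.Adj (y i) (y j)) →
        Tame G {v | v ∈ U ∧ ∀ i ≤ n y, v ≠ y i ∧ ¬ G.Adj v (y i) ∧ ¬ G.Adj (y i) v}) :
      Tame G U

end Pool.Agent.Lib.MP_9317e9_co
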