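import Mathlib
import Pool.Agent.Lib.MP_9317e9_co.Defs

set_option autoImplicit false

universe u

namespace Pool.Agent.Lib.MP_9317e9_co

variable {V : Type u} (G : Digraph V)

/-- closed out-neighbourhood -/
def Out1 (A : Set V) : Set V := {v | v ∈ A ∨ ∃ a ∈ A, G.Adj a v}

/-- closed in-neighbourhood -/
def In1 (B : Set V) : Set V := {v | v ∈ B ∨ ∃ b ∈ B, G.Adj v b}

/-- the induced subdigraph on `U` satisfies the conclusion of the conjecture -/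
def Solv (U : Set V) : Prop :=
  ∃ W0 W1 A B : Set V, W0 ∪ W1 = U ∧ Disjoint W0 W1 ∧ QK G W0 A ∧ QS G W1 B

variable {G}

lemma solv_of_qk {U A : Set V} (h : QK G U A) : Solv G U :=
  ⟨U, ∅, A, ∅, by simp, by simp, h, by simp, by simp [Indep], by simp⟩

/-- key step for quasi-kernels -/
lemma qk_step {W A A' : Set V} {P : Set V} (hA : Indep G A)
    (hQ : QK G W A') (hWA : ∀ v ∈ W, v ∉ Out1 G A) (hAP : A ⊆ P) (hP : P ⊆ Out1 G A) :
    QK G (W ∪ P) (A' ∪ (A \ {v | ∃ a ∈ A', G.Adj a v})) := by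
  obtain ⟨h1, h2, h3⟩ := hQ
  refine ⟨?_, ?_, ?_⟩
  · rintro v (hv | ⟨hv, _⟩)
    · exact Or.inl (h1 hv)
    · exact Or.inr (hAP hv)
  · rintro a (ha | ⟨ha, ha'⟩) b (hb | ⟨hb, hb'⟩) hab
    · exact h2 a ha b hb hab
    · exact hb' ⟨a, ha, hab⟩
    · exact hWA b (h1 hb) (Or.inr ⟨a, ha, hab⟩)
    · exact hA a ha b hb hab
  · rintro v (hv | hv)
    · rcases h3 v hv with h | ⟨a, ha, h | ⟨u, hu, h⟩⟩
      · exact Or.inl (Or.inl h)
      · exact Or.inr ⟨a, Or.inl ha, Or.inl h⟩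
      · exact Or.inr ⟨a, Or.inl ha, Or.inr ⟨u, Or.inl hu, h⟩⟩
    · rcases hP hv with hvA | ⟨a, ha, hav⟩
      · by_cases hd : ∃ a ∈ A', G.Adj a v
        · obtain ⟨a, ha, h⟩ := hd
          exact Or.inr ⟨a, Or.inl ha, Or.inl h⟩
        · exact Or.inl (Or.inr ⟨hvA, hd⟩)
      · by_cases hd : ∃ a' ∈ A', G.Adj a' a
        · obtain ⟨a', ha', h⟩ := hd
          exact Or.inr ⟨a', Or.inl ha', Or.inr ⟨a, Or.inr (hAP ha), h, hav⟩⟩
        · exact Or.inr ⟨a, Or.inr ⟨ha, hd⟩, Or.inl hav⟩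

/-- key step for quasi-sinks -/
lemma qs_step {W B B' : Set V} {P : Set V} (hB : Indep G B)
    (hQ : QS G W B') (hWB : ∀ v ∈ W, v ∉ In1 G B) (hBP : B ⊆ P) (hP : P ⊆ In1 G B) :
    QS G (W ∪ P) (B' ∪ (B \ {v | ∃ b ∈ B', G.Adj v b})) := by
  obtain ⟨h1, h2, h3⟩ := hQ
  refine ⟨?_, ?_, ?_⟩
  · rintro v (hv | ⟨hv, _⟩)
    · exact Or.inl (h1 hv)
    · exact Or.inr (hBP hv)
  · rintro a (ha | ⟨ha, ha'⟩) b (hb | ⟨hb, hb'⟩) hab
    · exact h2 a ha b hb hab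
    · exact hWB a (h1 ha) (Or.inr ⟨b, hb, hab⟩)
    · exact ha' ⟨b, hb, hab⟩
    · exact hB a ha b hb hab
  · rintro v (hv | hv)
    · rcases h3 v hv with h | ⟨a, ha, h | ⟨u, hu, h⟩⟩
      · exact Or.inl (Or.inl h)
      · exact Or.inr ⟨a, Or.inl ha, Or.inl h⟩
      · exact Or.inr ⟨a, Or.inl ha, Or.inr ⟨u, Or.inl hu, h⟩⟩
    · rcases hP hv with hvA | ⟨a, ha, hav⟩
      · by_cases hd : ∃ b ∈ B', G.Adj v b
        · obtain ⟨a, ha, h⟩ := hd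
          exact Or.inr ⟨a, Or.inl ha, Or.inl h⟩
        · exact Or.inl (Or.inr ⟨hvA, hd⟩)
      · by_cases hd : ∃ b' ∈ B', G.Adj a b'
        · obtain ⟨a', ha', h⟩ := hd
          exact Or.inr ⟨a', Or.inl ha', Or.inr ⟨a, Or.inr (hBP ha), hav, h⟩⟩
        · exact Or.inr ⟨a, Or.inr ⟨ha, hd⟩, Or.inl hav⟩

/-- Lemma 1 -/
lemma solv_step {U A B : Set V} (hAU : A ⊆ U) (hBU : B ⊆ U) (hA : Indep G A) (hB : Indep G B)
    (hAB : Disjoint A B) (h : Solv G (U \ (Out1 G A ∪ In1 G B))) : Solv G U := by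
  obtain ⟨W0, W1, A', B', hW, hd, hQ, hS⟩ := h
  have hW0 : ∀ v ∈ W0, v ∈ U ∧ v ∉ Out1 G A ∧ v ∉ In1 G B := by
    intro v hv
    have : v ∈ U \ (Out1 G A ∪ In1 G B) := hW ▸ Or.inl hv
    exact ⟨this.1, fun h => this.2 (Or.inl h), fun h => this.2 (Or.inr h)⟩
  have hW1 : ∀ v ∈ W1, v ∈ U ∧ v ∉ Out1 G A ∧ v ∉ In1 G B := by
    intro v hv
    have : v ∈ U \ (Out1 G A ∪ In1 G B) := hW ▸ Or.inr hv
    exact ⟨this.1, fun h => this.2 (Or.inl h), fun h => this.2 (Or.inr h)⟩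
  have hAB' : ∀ v, v ∈ A → v ∈ B → False := fun v h1 h2 => Set.disjoint_left.1 hAB h1 h2
  set P0 : Set V := (Out1 G A ∩ U) \ B with hP0
  set P1 : Set V := ((In1 G B ∩ U) \ Out1 G A) ∪ B with hP1
  refine ⟨W0 ∪ P0, W1 ∪ P1, _, _, ?_, ?_,
    qk_step hA hQ (fun v hv => (hW0 v hv).2.1) ?_ ?_,
    qs_step hB hS (fun v hv => (hW1 v hv).2.2) ?_ ?_⟩
  · ext v
    constructor
    · rintro ((h | h) | (h | (h | h)))
      · exact (hW0 v h).1
      · exact h.1.2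
      · exact (hW1 v h).1
      · exact h.1.2
      · exact hBU h
    · intro hv
      by_cases hvB : v ∈ B
      · exact Or.inr (Or.inr (Or.inr hvB))
      by_cases h1 : v ∈ Out1 G A
      · exact Or.inl (Or.inr ⟨⟨h1, hv⟩, hvB⟩)
      by_cases h2 : v ∈ In1 G B
      · exact Or.inr (Or.inr (Or.inl ⟨⟨h2, hv⟩, h1⟩))
      have : v ∈ W0 ∪ W1 := by
        rw [hW]
        exact ⟨hv, fun h => h.elim h1 h2⟩
      rcases this with h | h
      · exact Or.inl (Or.inl h)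
      · exact Or.inr (Or.inl h)
  · rw [Set.disjoint_left]
    rintro v (h | h) (h' | (h' | h'))
    · exact Set.disjoint_left.1 hd h h'
    · exact (hW0 v h).2.2 h'.1.1
    · exact (hW0 v h).2.2 (Or.inl h')
    · exact (hW1 v h').2.1 h.1.1
    · exact h'.2 h.1.1
    · exact h.2 h'
  · intro v hv
    exact ⟨⟨Or.inl hv, hAU hv⟩, fun h => hAB' v hv h⟩
  · intro v hv; exact hv.1.1
  · intro v hv; exact Or.inr hv
  · rintro v (hv | hv)
    · exact hv.1.1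
    · exact Or.inl hv

/-- maximal independent subsets of `U` containing a given one -/
lemma exists_maxIndep {U K : Set V} (hK : Indep G K) (hKU : K ⊆ U) :
    ∃ M, K ⊆ M ∧ M ⊆ U ∧ Indep G M ∧ ∀ v ∈ U, Indep G (insert v M) → v ∈ M := by
  obtain ⟨M, hKM, hM⟩ := zorn_subset_nonempty {M | M ⊆ U ∧ Indep G M} (by
    intro C hC hchain _
    refine ⟨⋃₀ C, ⟨Set.sUnion_subset fun M hM => (hC hM).1, ?_⟩, fun s hs =>
      Set.subset_sUnion_of_mem hs⟩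
    rintro a ⟨M, hM, ha⟩ b ⟨M', hM', hb⟩ hab
    rcases hchain.total hM hM' with h | h
    · exact (hC hM').2 a (h ha) b hb hab
    · exact (hC hM).2 a ha b (h hb) hab) K ⟨hKU, hK⟩
  refine ⟨M, hKM, hM.prop.1, hM.prop.2, fun v hv hi => ?_⟩
  have := hM.le_of_ge (y := insert v M) ⟨Set.insert_subset hv hM.prop.1, hi⟩
    (Set.subset_insert v M)
  exact this (Set.mem_insert v M)

/-- Lemma 2 -/
lemma unsolv_step (hG : ∀ v, ¬ G.Adj v v) {U M : Set V} (hU : ¬ Solv G U) (hMU : M ⊆ U)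
    (hM : Indep G M) (hmax : ∀ v ∈ U, Indep G (insert v M) → v ∈ M) {r : V} (hr : r ∈ U)
    (hr1 : r ∉ M) (hr2 : ∀ a ∈ M, ¬ G.Adj a r)
    (hr3 : ∀ a ∈ M, ∀ u ∈ U, G.Adj a u → ¬ G.Adj u r) :
    ∃ U' ⊆ U, ¬ Solv G U' ∧ r ∉ U' ∧ ∀ v ∈ U', ¬ G.Adj r v ∧ ¬ G.Adj v r := by
  refine ⟨U \ (Out1 G {r} ∪ In1 G M), Set.sdiff_subset, ?_, ?_, ?_⟩
  · intro h
    apply hU
    refine solv_step (by simpa using hr) hMU ?_ hM ?_ h
    · intro a ha b hb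
      rw [Set.mem_singleton_iff] at ha hb
      subst ha; subst hb; exact hG _
    · simpa using hr1
  · intro h
    exact h.2 (Or.inl (Or.inl rfl))
  · rintro v ⟨hvU, hv⟩
    have h1 : ¬ G.Adj r v := fun h => hv (Or.inl (Or.inr ⟨r, rfl, h⟩))
    refine ⟨h1, fun h2 => ?_⟩
    have hvM : v ∉ M := fun h => hv (Or.inr (Or.inl h))
    have hnot : ¬ Indep G (insert v M) := fun h => hvM (hmax v hvU h)
    apply hnot
    rintro a (rfl | ha) b (rfl | hb) hab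
    · exact hG _ hab
    · exact hv (Or.inr (Or.inr ⟨b, hb, hab⟩))
    · exact hr3 a ha b hvU hab h2
    · exact hM a ha b hb hab

end Pool.Agent.Lib.MP_9317e9_co
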