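import Mathlib
import Pool.Agent.Lib.MP_9317e9_co.Basic

set_option autoImplicit false

universe u

namespace Pool.Agent.Lib.MP_9317e9_co

variable {V : Type u} {G : Digraph V}

/-- Chvatal-Lovasz for finite sets of vertices -/
lemma exists_qk_finite (hG : ∀ v, ¬ G.Adj v v) :
    ∀ (n : ℕ) (F : Set V), F.Finite → F.ncard = n → ∃ A, QK G F A := by
  intro n
  induction n using Nat.strong_induction_on with
  | _ n ih =>
    intro F hF hn
    rcases F.eq_empty_or_nonempty with rfl | ⟨v, hv⟩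
    · exact ⟨∅, by simp, by simp [Indep], by simp⟩
    · have hlt : (F \ Out1 G {v}).ncard < n := by
        rw [← hn]
        apply Set.ncard_lt_ncard _ hF
        refine ⟨Set.sdiff_subset, fun h => ?_⟩
        exact (h hv).2 (Or.inl rfl)
      obtain ⟨A', hA'⟩ := ih _ hlt (F \ Out1 G {v}) (hF.subset Set.sdiff_subset) rfl
      have hind : Indep G ({v} : Set V) := by
        intro a ha b hb
        rw [Set.mem_singleton_iff] at ha hb
        subst ha; subst hb; exact hG _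
      have := qk_step (P := Out1 G {v} ∩ F) hind hA' (fun w hw => hw.2)
        (by intro w hw; exact ⟨Or.inl hw, by rw [Set.mem_singleton_iff.1 hw]; exact hv⟩)
        (fun w hw => hw.1)
      have heq : F \ Out1 G {v} ∪ Out1 G {v} ∩ F = F := by
        ext w; constructor
        · rintro (h | h)
          · exact h.1
          · exact h.2
        · intro h
          by_cases h' : w ∈ Out1 G {v}
          · exact Or.inr ⟨h', h⟩
          · exact Or.inl ⟨h, h'⟩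
      rw [heq] at this
      exact ⟨_, this⟩

/-- digraphs with finite in-degrees have quasi-kernels -/
lemma exists_qk_locallyFinite (hG : ∀ v, ¬ G.Adj v v) {U : Set V}
    (hU : ∀ v ∈ U, {u | u ∈ U ∧ G.Adj u v}.Finite) : ∃ A, QK G U A := by
  classical
  have hch : ∀ F : Finset V, ∃ A, QK G ((F : Set V) ∩ U) A := fun F =>
    exists_qk_finite hG _ _ (F.finite_toSet.subset Set.inter_subset_left) rfl
  choose K hK using hch
  set 𝒰 : Ultrafilter (Finset V) := Ultrafilter.of Filter.atTop with h𝒰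
  have hle : (𝒰 : Filter (Finset V)) ≤ Filter.atTop := Ultrafilter.of_le _
  refine ⟨{v | ∀ᶠ F in (𝒰 : Filter (Finset V)), v ∈ K F}, ?_, ?_, ?_⟩
  · intro v hv
    obtain ⟨F, hF⟩ := hv.exists
    exact ((hK F).1 hF).2
  · intro a ha b hb hab
    obtain ⟨F, hF1, hF2⟩ := (Filter.Eventually.and ha hb).exists
    exact (hK F).2.1 a hF1 b hF2 hab
  · intro v hv
    set N1 : Set V := {u | u ∈ U ∧ G.Adj u v} with hN1
    have hN1f : N1.Finite := hU v hv
    set N2 : Set V := ⋃ u ∈ N1, {w | w ∈ U ∧ G.Adj w u} with hN2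
    have hN2f : N2.Finite := hN1f.biUnion fun u hu => hU u hu.1
    have hev : ∀ᶠ F in (𝒰 : Filter (Finset V)), v ∈ K F ∨ (∃ a ∈ N1, a ∈ K F) ∨
        ∃ a ∈ N2, a ∈ K F := by
      have h1 : ∀ᶠ F in (𝒰 : Filter (Finset V)), insert v hN1f.toFinset ⊆ F :=
        hle (Filter.mem_atTop _)
      filter_upwards [h1] with F hF
      have hvF : v ∈ F := hF (Finset.mem_insert_self _ _)
      rcases (hK F).2.2 v ⟨hvF, hv⟩ with h | ⟨a, ha, h | ⟨u, hu, h, h'⟩⟩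
      · exact Or.inl h
      · exact Or.inr (Or.inl ⟨a, ⟨((hK F).1 ha).2, h⟩, ha⟩)
      · refine Or.inr (Or.inr ⟨a, ?_, ha⟩)
        rw [hN2, Set.mem_iUnion₂]
        exact ⟨u, ⟨hu.2, h'⟩, ((hK F).1 ha).2, h⟩
    rw [Ultrafilter.eventually_or, Ultrafilter.eventually_or,
      Ultrafilter.eventually_exists_mem_iff hN1f, Ultrafilter.eventually_exists_mem_iff hN2f] at hev
    rcases hev with h | ⟨a, ha, h⟩ | ⟨a, ha, h⟩
    · exact Or.inl h
    · exact Or.inr ⟨a, h, Or.inl ha.2⟩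
    · rw [hN2, Set.mem_iUnion₂] at ha
      obtain ⟨u, hu, hau⟩ := ha
      exact Or.inr ⟨a, h, Or.inr ⟨u, hu.1, hau.2, hu.2⟩⟩

/-- kernels of digraphs without infinite backward paths -/
lemma exists_kernel_wf {S : Set V}
    (hS : ¬ ∃ f : ℕ → V, (∀ n, f n ∈ S) ∧ ∀ n, G.Adj (f (n + 1)) (f n)) :
    ∃ A ⊆ S, Indep G A ∧ ∀ v ∈ S, v ∈ Out1 G A := by
  classical
  let r : S → S → Prop := fun a b => G.Adj a b
  have hwf : WellFounded r := by
    rw [wellFounded_iff_isEmpty_descending_chain]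
    refine ⟨fun f => hS ⟨fun n => (f.1 n : V), fun n => (f.1 n).2, fun n => f.2 n⟩⟩
  let K : S → Prop := hwf.fix (fun v IH => ∀ u, (h : r u v) → ¬ IH u h)
  have hK : ∀ v, K v ↔ ∀ u, r u v → ¬ K u := by
    intro v
    have := hwf.fix_eq (C := fun _ => Prop) (fun v IH => ∀ u, (h : r u v) → ¬ IH u h) v
    exact iff_of_eq this
  refine ⟨{v | ∃ h : v ∈ S, K ⟨v, h⟩}, ?_, ?_, ?_⟩
  · rintro v ⟨h, _⟩; exact h
  · rintro a ⟨ha, hKa⟩ b ⟨hb, hKb⟩ hab
    exact (hK ⟨b, hb⟩).1 hKb ⟨a, ha⟩ hab hKa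
  · intro v hv
    by_cases h : K ⟨v, hv⟩
    · exact Or.inl ⟨hv, h⟩
    · rw [hK] at h
      push Not at h
      obtain ⟨u, hu, hKu⟩ := h
      exact Or.inr ⟨u, ⟨u.2, hKu⟩, hu⟩

/-- finitely many classes without infinite backward paths plus a part with finite in-degrees -/
lemma exists_qk_mixed (hG : ∀ v, ¬ G.Adj v v) {X Z : Set V} {c : V → ℕ}
    (hX : ¬ ∃ f : ℕ → V, (∀ n, f n ∈ X ∧ c (f n) = c (f 0)) ∧ ∀ n, G.Adj (f (n + 1)) (f n))
    (hZ : ∀ z ∈ Z, {u | u ∈ Z ∧ G.Adj u z}.Finite) :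
    ∀ (k : ℕ) (U : Set V), (∀ v ∈ U, (v ∈ X ∧ c v < k) ∨ v ∈ Z) → ∃ A, QK G U A := by
  intro k
  induction k with
  | zero =>
    intro U hU
    apply exists_qk_locallyFinite hG
    intro v hv
    have hsub : ∀ w ∈ U, w ∈ Z := fun w hw => (hU w hw).elim (fun h => absurd h.2 (Nat.not_lt_zero _)) id
    exact (hZ v (hsub v hv)).subset fun w hw => ⟨hsub w hw.1, hw.2⟩
  | succ k ih =>
    intro U hU
    obtain ⟨S, hSU, hSi, hSd⟩ := exists_kernel_wf (G := G) (S := {v | v ∈ U ∧ v ∈ X ∧ c v = k}) (by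
      rintro ⟨f, hf, hadj⟩
      exact hX ⟨f, fun n => ⟨(hf n).2.1, (hf n).2.2.trans (hf 0).2.2.symm⟩, hadj⟩)
    obtain ⟨A', hA'⟩ := ih (U \ Out1 G S) (by
      rintro v ⟨hvU, hvS⟩
      rcases hU v hvU with ⟨h1, h2⟩ | h
      · left
        refine ⟨h1, ?_⟩
        rcases Nat.lt_succ_iff_lt_or_eq.1 h2 with h3 | h3
        · exact h3
        · exact absurd (hSd v ⟨hvU, h1, h3⟩) hvS
      · exact Or.inr h)
    have := qk_step (P := Out1 G S ∩ U) hSi hA' (fun w hw => hw.2)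
      (by intro w hw; exact ⟨Or.inl hw, (hSU hw).1⟩) (fun w hw => hw.1)
    have heq : U \ Out1 G S ∪ Out1 G S ∩ U = U := by
      ext w; constructor
      · rintro (h | h)
        · exact h.1
        · exact h.2
      · intro h
        by_cases h' : w ∈ Out1 G S
        · exact Or.inr ⟨h', h⟩
        · exact Or.inl ⟨h, h'⟩
    rw [heq] at this
    exact ⟨_, this⟩

/-- reversed digraph -/
def rev (G : Digraph V) : Digraph V := ⟨fun a b => G.Adj b a⟩

lemma qs_of_qk_rev {W B : Set V} (h : QK (rev G) W B) : QS G W B := by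
  obtain ⟨h1, h2, h3⟩ := h
  refine ⟨h1, fun a ha b hb hab => h2 b hb a ha hab, fun v hv => ?_⟩
  rcases h3 v hv with h | ⟨a, ha, h | ⟨u, hu, h, h'⟩⟩
  · exact Or.inl h
  · exact Or.inr ⟨a, ha, Or.inl h⟩
  · exact Or.inr ⟨a, ha, Or.inr ⟨u, hu, h', h⟩⟩

/-- finitely many classes without infinite forward paths plus a part with finite out-degrees -/
lemma exists_qs_mixed (hG : ∀ v, ¬ G.Adj v v) {X Z : Set V} {c : V → ℕ}
    (hX : ¬ ∃ f : ℕ → V, (∀ n, f n ∈ X ∧ c (f n) = c (f 0)) ∧ ∀ n, G.Adj (f n) (f (n + 1)))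
    (hZ : ∀ z ∈ Z, {u | u ∈ Z ∧ G.Adj z u}.Finite)
    (k : ℕ) (U : Set V) (hU : ∀ v ∈ U, (v ∈ X ∧ c v < k) ∨ v ∈ Z) : ∃ A, QS G U A := by
  obtain ⟨A, hA⟩ := exists_qk_mixed (G := rev G) (X := X) (Z := Z) (c := c) hG hX hZ k U hU
  exact ⟨A, qs_of_qk_rev hA⟩

/-- abstract form -/
theorem solv_of_hereditary (hG : ∀ v, ¬ G.Adj v v) {U0 Y R0 R1 : Set V}
    (hV : ∀ v ∈ U0, v ∈ Y ∨ v ∈ R0 ∨ v ∈ R1)
    (h0 : ∀ U ⊆ R0, ∃ A, QK G U A) (h1 : ∀ U ⊆ R1, ∃ B, QS G U B)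
    (hY : ∀ y : ℕ → V, (∀ n, y n ∈ Y ∧ y n ∈ U0) →
      (∀ m n, m ≠ n → y m ≠ y n ∧ ¬ G.Adj (y m) (y n)) →
      ∃ n, ∀ U ⊆ {v | v ∈ U0 ∧ ∀ i ≤ n, v ≠ y i ∧ ¬ G.Adj v (y i) ∧ ¬ G.Adj (y i) v},
        Solv G U) :
    ∀ U ⊆ U0, Solv G U := by
  by_contra hcon0
  push Not at hcon0
  obtain ⟨Ustart, hstart, hcon⟩ := hcon0
  -- terminal set
  obtain ⟨U, hUU0, hU, hterm⟩ : ∃ U ⊆ U0, ¬ Solv G U ∧ ∀ r ∈ U, r ∈ Y → ∀ U' ⊆ U, ¬ Solv G U' →
      r ∉ U' → ¬ ∀ v ∈ U', ¬ G.Adj r v ∧ ¬ G.Adj v r := by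
    by_contra hno
    push Not at hno
    have : Nonempty V := ⟨(hno _ hstart hcon).choose⟩
    choose! r hrU hrY U' hU'U hU' hrU' hadj using hno
    -- iterate
    let Us : ℕ → Set V := fun n => U'^[n] Ustart
    have hUs : ∀ n, Us n ⊆ U0 ∧ ¬ Solv G (Us n) := by
      intro n
      induction n with
      | zero => exact ⟨hstart, hcon⟩
      | succ n ih =>
        simp only [Us, Function.iterate_succ_apply']
        exact ⟨(hU'U _ ih.1 ih.2).trans ih.1, hU' _ ih.1 ih.2⟩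
    have hUsucc : ∀ n, Us (n + 1) = U' (Us n) := fun n => by
      simp only [Us, Function.iterate_succ_apply']
    have hsub : ∀ m n, m ≤ n → Us n ⊆ Us m := by
      intro m n hmn
      induction hmn with
      | refl => exact subset_rfl
      | step h ih =>
        rw [Nat.succ_eq_add_one, hUsucc]
        exact (hU'U _ (hUs _).1 (hUs _).2).trans ih
    have key : ∀ m n, m < n → r (Us n) ∈ Us (m + 1) := by
      intro m n hmn
      exact hsub (m + 1) n hmn (hrU _ (hUs n).1 (hUs n).2)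
    have hne : ∀ m n, m < n → r (Us m) ≠ r (Us n) := by
      intro m n hmn heq
      have h1 := key m n hmn
      rw [← heq, hUsucc] at h1
      exact hrU' _ (hUs m).1 (hUs m).2 h1
    have hnadj : ∀ m n, m < n → ¬ G.Adj (r (Us m)) (r (Us n)) ∧ ¬ G.Adj (r (Us n)) (r (Us m)) := by
      intro m n hmn
      have h1 := key m n hmn
      rw [hUsucc] at h1
      exact hadj _ (hUs m).1 (hUs m).2 _ h1
    obtain ⟨n, hn⟩ := hY (fun n => r (Us n))
      (fun n => ⟨hrY _ (hUs n).1 (hUs n).2, (hUs n).1 (hrU _ (hUs n).1 (hUs n).2)⟩) (by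
        intro m n hmn
        rcases lt_or_gt_of_ne hmn with h | h
        · exact ⟨hne m n h, (hnadj m n h).1⟩
        · exact ⟨(hne n m h).symm, (hnadj n m h).2⟩)
    refine (hUs (n + 1)).2 (hn _ ?_)
    intro v hv
    refine ⟨(hUs _).1 hv, fun i hi => ?_⟩
    have hv' : v ∈ U' (Us i) := by
      rw [← hUsucc]
      exact hsub (i + 1) (n + 1) (by omega) hv
    have h2 := hadj _ (hUs i).1 (hUs i).2 v hv'
    refine ⟨?_, h2.2, h2.1⟩
    rintro rfl
    exact hrU' _ (hUs i).1 (hUs i).2 hv'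
  -- quasi-kernel of the rest
  obtain ⟨K, hKU, hKi, hKd⟩ := h0 (U ∩ R0) Set.inter_subset_right
  obtain ⟨M, hKM, hMU, hMi, hmax⟩ := exists_maxIndep hKi (hKU.trans Set.inter_subset_left)
  set W0 : Set V := {v | v ∈ U ∧ (v ∈ M ∨ ∃ a ∈ M, G.Adj a v ∨ ∃ u ∈ U, G.Adj a u ∧ G.Adj u v)}
    with hW0
  have hW1 : U \ W0 ⊆ R1 := by
    rintro v ⟨hv, hvW⟩
    have hbad : ¬ (v ∈ M ∨ ∃ a ∈ M, G.Adj a v ∨ ∃ u ∈ U, G.Adj a u ∧ G.Adj u v) :=
      fun h => hvW ⟨hv, h⟩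
    push Not at hbad
    obtain ⟨hvM, hbad⟩ := hbad
    rcases hV v (hUU0 hv) with hvY | hvR | hvR
    · exfalso
      obtain ⟨U', h1, h2, h3, h4⟩ := unsolv_step hG hU hMU hMi hmax hv hvM
        (fun a ha => (hbad a ha).1) (fun a ha u hu => (hbad a ha).2 u hu)
      exact hterm v hv hvY U' h1 h2 h3 h4
    · exfalso
      rcases hKd v ⟨hv, hvR⟩ with h | ⟨a, ha, h | ⟨u, hu, h, h'⟩⟩
      · exact hvM (hKM h)
      · exact (hbad a (hKM ha)).1 h
      · exact (hbad a (hKM ha)).2 u hu.1 h h'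
    · exact hvR
  obtain ⟨B, hB⟩ := h1 _ hW1
  apply hU
  refine ⟨W0, U \ W0, M, B, ?_, Set.disjoint_sdiff_right, ⟨?_, hMi, ?_⟩, hB⟩
  · exact Set.union_sdiff_cancel fun v hv => hv.1
  · intro v hv
    exact ⟨hMU hv, Or.inl hv⟩
  · rintro v ⟨hv, h | ⟨a, ha, h | ⟨u, hu, h, h'⟩⟩⟩
    · exact Or.inl h
    · exact Or.inr ⟨a, ha, Or.inl h⟩
    · exact Or.inr ⟨a, ha, Or.inr ⟨u, ⟨hu, Or.inr ⟨a, ha, Or.inl h⟩⟩, h, h'⟩⟩

/-- every induced subdigraph on a subset of a tame set satisfies the conclusion -/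
theorem solv_of_tame (hG : ∀ v, ¬ G.Adj v v) {U : Set V} (hU : Tame G U) :
    ∀ U' ⊆ U, Solv G U' := by
  induction hU with
  | intro U Y X₀ Z₀ X₁ Z₁ c k cover hX₀ hZ₀ hX₁ hZ₁ n _ ih =>
    apply solv_of_hereditary hG (Y := Y) (R0 := {v | (v ∈ X₀ ∧ c v < k) ∨ v ∈ Z₀})
      (R1 := {v | (v ∈ X₁ ∧ c v < k) ∨ v ∈ Z₁})
    · intro v hv
      rcases cover v hv with h | h | h | h | h
      · exact Or.inl h
      · exact Or.inr (Or.inl (Or.inl h))
      · exact Or.inr (Or.inl (Or.inr h))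
      · exact Or.inr (Or.inr (Or.inl h))
      · exact Or.inr (Or.inr (Or.inr h))
    · intro S hS
      exact exists_qk_mixed hG hX₀ hZ₀ k S fun v hv => hS hv
    · intro S hS
      exact exists_qs_mixed hG hX₁ hZ₁ k S fun v hv => hS hv
    · intro y hy1 hy2
      exact ⟨n y, ih y hy1 hy2⟩

theorem main {V : Type u} (G : Digraph V) (hG : ∀ v, ¬ G.Adj v v) (hT : Tame G Set.univ) :
    ∃ W : Set V, (∃ A, QK G W A) ∧ ∃ B, QS G Wᶜ B := by
  obtain ⟨W0, W1, A, B, hW, hd, hA, hB⟩ := solv_of_tame hG hT Set.univ subset_rfl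
  have : W1 = W0ᶜ := by
    ext v; constructor
    · intro h h'; exact Set.disjoint_left.1 hd h' h
    · intro h
      have : v ∈ W0 ∪ W1 := hW ▸ Set.mem_univ v
      exact this.resolve_left h
  subst this
  exact ⟨W0, ⟨A, hA⟩, B, hB⟩

end Pool.Agent.Lib.MP_9317e9_co
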